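import Pool.Agent.H.MP_9329f2_nt.B

namespace Pool.Agent.Results.MP_9329f2_nt.No

open Pool.Agent.H.MP_9329f2_nt

/-- `σ_{-r}(n) = ∑_{d ∣ n} d^{-r}` -/
noncomputable def sigma (r : ℝ) (n : ℕ) : ℝ := ∑ d ∈ n.divisors, (d : ℝ) ^ (-r)

/-- the image `σ_{-r}(ℕ)`, `ℕ = {1, 2, …}` -/
def image (r : ℝ) : Set ℝ := {y | ∃ n : ℕ, 1 ≤ n ∧ sigma r n = y}

/-- `C_r`: the number of connected components of the closure of `σ_{-r}(ℕ)` in `ℝ` -/
noncomputable def C (r : ℝ) : ℕ∞ := ENat.card (ConnectedComponents (closure (image r)))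

theorem image_eq (r : ℝ) : image r = V r 2 := by
  ext y
  exact ⟨fun ⟨n, h1, h2⟩ => ⟨n, h1, fun q hq _ => hq.two_le, h2⟩, fun ⟨n, h1, _, h2⟩ => ⟨n, h1, h2⟩⟩

theorem result : ∃ r s : ℝ, 1 < r ∧ r < s ∧ C s < C r := by
  refine ⟨56 / 13, 13 / 3, by norm_num, by norm_num, ?_⟩
  rw [C, C, image_eq, image_eq]
  exact lt_of_le_of_lt upp (lt_of_lt_of_le (by decide) low)

end Pool.Agent.Results.MP_9329f2_nt.No
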